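import Pool.Agent.Helper32_ABCT.EStmts

/-! Module CTXB: blocks of labels in contexts. -/

namespace ABCT.H21

open ABCT

/-- one step of the block computation -/
theorem blk_step {A B : Finset ℕ} {q : ℕ} {b c : Finset ℕ}
    (hAB : Disjoint (A.erase q) (B.erase q)) (hb : b ⊆ A) (hc : c ⊆ A) (hd : Disjoint b c) :
    Disjoint (if q ∈ b then b.erase q ∪ B.erase q else b)
      (if q ∈ c then c.erase q ∪ B.erase q else c) := by
  rw [Finset.disjoint_left] at hAB hd ⊢
  intro a ha hc'
  by_cases hqb : q ∈ b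
  · have hqc : q ∉ c := hd hqb
    rw [if_pos hqb] at ha
    rw [if_neg hqc] at hc'
    rcases Finset.mem_union.1 ha with h | h
    · exact hd (Finset.mem_of_mem_erase h) hc'
    · have hne : a ≠ q := fun e => hqc (e ▸ hc')
      exact hAB (Finset.mem_erase.2 ⟨hne, hc hc'⟩) h
  · rw [if_neg hqb] at ha
    by_cases hqc : q ∈ c
    · rw [if_pos hqc] at hc'
      rcases Finset.mem_union.1 hc' with h | h
      · exact hd ha (Finset.mem_of_mem_erase h)
      · have hne : a ≠ q := fun e => hqb (e ▸ ha)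
        exact hAB (Finset.mem_erase.2 ⟨hne, hb ha⟩) h
    · rw [if_neg hqc] at hc'
      exact hd ha hc'

theorem blk_sub {A B : Finset ℕ} {q : ℕ} {b : Finset ℕ} (hb : b ⊆ A) :
    (if q ∈ b then b.erase q ∪ B.erase q else b) ⊆ A.erase q ∪ B.erase q := by
  by_cases hq : q ∈ b
  · rw [if_pos hq]
    exact Finset.union_subset_union (Finset.erase_subset_erase q hb) subset_rfl
  · rw [if_neg hq]
    intro a ha
    exact Finset.mem_union_left _ (Finset.mem_erase.2 ⟨fun e => hq (e ▸ ha), hb ha⟩)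

theorem ctxb : CtxBStmt := by
  intro C N
  induction C with
  | hole =>
    intro _
    refine ⟨fun x hx => ?_, fun x _ y _ hxy => ?_⟩
    · simpa [Ctx.blk, Ctx.app] using hx
    · simpa [Ctx.blk] using hxy
  | dsumL C T ih =>
    intro hV
    obtain ⟨h1, h2, h3⟩ : (C.app N).Valid ∧ T.Valid ∧ Disjoint (C.app N).E T.E := hV
    obtain ⟨i1, i2⟩ := ih h1
    exact ⟨fun x hx => (i1 x hx).trans Finset.subset_union_left, i2⟩
  | dsumR T C ih =>
    intro hV
    obtain ⟨h1, h2, h3⟩ : T.Valid ∧ (C.app N).Valid ∧ Disjoint T.E (C.app N).E := hV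
    obtain ⟨i1, i2⟩ := ih h2
    exact ⟨fun x hx => (i1 x hx).trans Finset.subset_union_right, i2⟩
  | tsumL C T q ih =>
    intro hV
    have h1 : (C.app N).Valid := hV.1
    have h3 : Disjoint ((C.app N).E.erase q) (T.E.erase q) := hV.2.2.2.2.2.2.1
    obtain ⟨i1, i2⟩ := ih h1
    exact ⟨fun x hx => blk_sub (i1 x hx),
      fun x hx y hy hxy => blk_step h3 (i1 x hx) (i1 y hy) (i2 x hx y hy hxy)⟩
  | tsumR T C q ih =>
    intro hV
    have h1 : (C.app N).Valid := hV.2.1
    have h3 : Disjoint (T.E.erase q) ((C.app N).E.erase q) := hV.2.2.2.2.2.2.1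
    obtain ⟨i1, i2⟩ := ih h1
    refine ⟨fun x hx => ?_,
      fun x hx y hy hxy => blk_step h3.symm (i1 x hx) (i1 y hy) (i2 x hx y hy hxy)⟩
    have h := blk_sub (q := q) (B := T.E) (i1 x hx)
    rw [Finset.union_comm ((C.app N).E.erase q)] at h
    exact h

end ABCT.H21
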