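import Pool.Agent.Helper32_ABCT.EStmts
import Pool.Agent.Helper32_ABCT.Api3

/-! Module VLAM: quotients of the gaps of a generic vertex are in the chart lattice. -/

open MvPolynomial

namespace ABCT.H21

open ABCT FlatCell

theorem zexp_apply {W : Type*} (μ : W →₀ ℕ) (w : W) : zexp μ w = (μ w : ℤ) := by
  simp [zexp]

/-- for all gaps `h` a monomial of `Δ J₀` containing `h`, with a common remainder -/
theorem gen_mono (l : List ℕ) (r : ℕ) (h1 : l.Nodup) (h2 : 2 ≤ r) (h3 : r + 2 ≤ l.length) :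
    ∃ J₀ ∈ (Net.gen l r).M, ∃ ρ : Fin (l.length - 2) →₀ ℕ, ∀ h : Fin (l.length - 2),
      Finsupp.single h 1 + ρ ∈ ((Net.gen l r).Δ J₀).support := by
  classical
  have hl0 : l.getD 0 0 = l[0] := by
    rw [List.getD_eq_getElem]
  have hl1 : l.getD (l.length - 2) 0 = l[l.length - 2] := by
    rw [List.getD_eq_getElem]
  have hcard : ({l.getD 0 0, l.getD (l.length - 2) 0} : Finset ℕ).card ≤ r :=
    (Finset.card_le_two).trans h2
  have hsub : ({l.getD 0 0, l.getD (l.length - 2) 0} : Finset ℕ) ⊆ l.toFinset := by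
    intro a ha
    rw [Finset.mem_insert, Finset.mem_singleton] at ha
    rw [List.mem_toFinset]
    rcases ha with rfl | rfl
    · rw [hl0]
      exact List.getElem_mem _
    · rw [hl1]
      exact List.getElem_mem _
  obtain ⟨J₀, hJ1, hJ2, hJ3⟩ := Finset.exists_subsuperset_card_eq hsub hcard
    (by rw [List.toFinset_card_of_nodup h1]; omega)
  have hJM : J₀ ∈ (Net.gen l r).M := Finset.mem_powersetCard.2 ⟨hJ2, hJ3⟩
  have hp : ((0, l.length - 2) : ℕ × ℕ) ∈ Net.prs l J₀ := by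
    unfold Net.prs
    rw [Finset.mem_filter, Finset.mem_product, Finset.mem_range, Finset.mem_range]
    refine ⟨⟨by omega, by dsimp only; omega⟩, by dsimp only; omega, ?_, ?_⟩
    · exact hJ1 (by simp)
    · exact hJ1 (by simp)
  have hD : (Net.gen l r).Δ J₀ = Net.D (l.length - 2) 0 (l.length - 2) *
      ∏ p ∈ (Net.prs l J₀).erase (0, l.length - 2), Net.D (l.length - 2) p.1 p.2 := by
    unfold Net.Δ
    rw [if_pos hJM]
    exact (Finset.mul_prod_erase _ (fun p : ℕ × ℕ => Net.D (l.length - 2) p.1 p.2) hp).symm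
  have hQ : ∏ p ∈ (Net.prs l J₀).erase (0, l.length - 2), Net.D (l.length - 2) p.1 p.2 ≠ 0 := by
    refine natpoly_prod_ne_zero _ _ fun p hp' => ?_
    have hp2 := Finset.mem_of_mem_erase hp'
    unfold Net.prs at hp2
    rw [Finset.mem_filter, Finset.mem_product, Finset.mem_range, Finset.mem_range] at hp2
    exact D_ne_zero _ _ _ hp2.2.1 (by omega)
  obtain ⟨ρ, hρ⟩ := Finset.nonempty_iff_ne_empty.2 (fun e => hQ (support_eq_empty.1 e))
  refine ⟨J₀, hJM, ρ, fun h => ?_⟩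
  rw [hD, natpoly_support_mul]
  refine ⟨_, ?_, ρ, hρ, rfl⟩
  unfold Net.D
  rw [mem_support_iff, coeff_sum]
  have hh : h ∈ Finset.univ.filter (fun h : Fin (l.length - 2) => 0 ≤ h.1 ∧ h.1 < l.length - 2) := by
    rw [Finset.mem_filter]
    exact ⟨Finset.mem_univ _, Nat.zero_le _, h.2⟩
  intro h0
  have := (Finset.sum_eq_zero_iff.1 h0) h hh
  rw [coeff_X, if_pos rfl] at this
  exact one_ne_zero this

theorem vlam (hJ : CtxJStmt) (hM : CtxMStmt) : VlamStmt := by
  classical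
  intro C l r hV h k
  have hN : (Net.gen l r).Valid := (hM C (Net.gen l r) (Net.gen l r) rfl rfl).2.2.2.2 hV
  obtain ⟨h1, h2, h3⟩ : l.Nodup ∧ 2 ≤ r ∧ r + 2 ≤ l.length := hN
  obtain ⟨J, Rp, kx, hJJ⟩ := hJ C (Net.gen l r).E (Net.gen l r).M
  obtain ⟨hC, hsurj⟩ := hJJ (Net.gen l r) rfl rfl hV
  obtain ⟨J₀, hJ₀, ρ, hρ⟩ := gen_mono l r h1 h2 h3
  obtain ⟨I, hI, hIJ⟩ := hsurj J₀ hJ₀
  obtain ⟨-, hRp, hΔ, -⟩ := hC I hI
  rw [hIJ] at hΔ
  have hR : rename (C.go (Net.gen l r)) (Rp I) ≠ 0 := (natpoly_rename_ne_zero _ _).2 hRp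
  obtain ⟨σ, hσ⟩ := Finset.nonempty_iff_ne_empty.2 (fun e => hR (support_eq_empty.1 e))
  have hprod : (∏ i ∈ I, X (Sum.inl i) : MvPolynomial (C.app (Net.gen l r)).flat.V ℕ) ≠ 0 :=
    natpoly_prod_ne_zero _ _ fun i _ => X_ne_zero _
  obtain ⟨τ, hτ⟩ := Finset.nonempty_iff_ne_empty.2 (fun e => hprod (support_eq_empty.1 e))
  have hgi : Function.Injective (C.gi (Net.gen l r)) := fun a b hab =>
    Sum.inl_injective ((C.ge (Net.gen l r)).symm.injective hab)
  have hmem : ∀ g : Fin (l.length - 2), τ + Finsupp.mapDomain Sum.inr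
      (Finsupp.mapDomain (C.gi (Net.gen l r)) (Finsupp.single g 1 + ρ) + σ) ∈
        ((C.app (Net.gen l r)).flat.pol I).support := by
    intro g
    unfold FlatCell.pol
    rw [natpoly_support_mul]
    refine ⟨τ, hτ, _, ?_, rfl⟩
    rw [support_rename_of_injective Sum.inr_injective]
    refine Finset.mem_image_of_mem _ ?_
    change _ ∈ ((C.app (Net.gen l r)).Δ I).support
    rw [hΔ, natpoly_support_mul]
    refine ⟨_, ?_, σ, hσ, rfl⟩
    rw [support_rename_of_injective hgi]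
    exact Finset.mem_image_of_mem _ (hρ g)
  refine AddSubgroup.subset_closure ⟨I, hI, I, hI, _, hmem h, _, hmem k, ?_⟩
  ext v
  simp only [Finsupp.sub_apply, zexp_apply, Finsupp.add_apply, Finsupp.mapDomain_add,
    Finsupp.mapDomain_single]
  push_cast
  have e : ∀ w : (C.app (Net.gen l r)).flat.V, ((Finsupp.single w (1 : ℕ) v : ℕ) : ℤ)
      = Finsupp.single w (1 : ℤ) v := by
    intro w
    by_cases hw : w = v
    · subst hw
      simp
    · simp [hw]
  rw [e, e]
  ring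

end ABCT.H21
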